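import Mathlib

set_option autoImplicit false
set_option linter.unusedVariables false
set_option linter.unusedSectionVars false

universe u v w

open FirstOrder

namespace Pool.Agent.Results.MP_615e1a_lc.TwoImpliesAll

/-- A set of finite sets is a sunflower if any two different members have the same intersection
`r`. -/
def IsSunflower {X : Type u} (S : Set (Finset X)) : Prop :=
  ∃ r : Set X, ∀ p ∈ S, ∀ q ∈ S, p ≠ q → (p : Set X) ∩ (q : Set X) = r

/-- The structure `M` is `n`-sunflowerable: every structure `Y` isomorphic to `M` whose elements are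
sets with `n` elements has a substructure `Z` isomorphic to `Y` whose elements form a
sunflower. -/
def Sunflowerable (L : FirstOrder.Language.{v, w}) (M : Type u) [L.Structure M] (n : ℕ) : Prop :=
  ∀ (X : Type u) (Y : Set (Finset X)) [L.Structure Y], (∀ p ∈ Y, p.card = n) →
    Nonempty (M ≃[L] Y) →
    ∃ Z : L.Substructure Y, Nonempty (Z ≃[L] Y) ∧ IsSunflower {p : Finset X | ∃ z ∈ Z, (z : Finset X) = p}

variable {L : FirstOrder.Language.{v, w}} {M : Type u} [L.Structure M]

/-- every function is injective or constant on a copy -/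
theorem canonical [Infinite M] (h : Sunflowerable L M 2) (X : Type u) (g : M → X) :
    ∃ j : M ↪[L] M, Function.Injective (fun m => g (j m)) ∨ ∃ c, ∀ m, g (j m) = c := by
  classical
  let f : M → Finset (X ⊕ M) := fun m => {Sum.inl (g m), Sum.inr m}
  have hinr : ∀ m m', (Sum.inr m' : X ⊕ M) ∈ f m ↔ m' = m := by
    intro m m'
    simp [f]
  have hinl : ∀ m x, (Sum.inl x : X ⊕ M) ∈ f m ↔ x = g m := by
    intro m x
    simp [f]
  have hf : Function.Injective f := by
    intro m m' hmm
    have h1 : (Sum.inr m : X ⊕ M) ∈ f m' := by rw [← hmm]; exact (hinr m m).2 rfl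
    exact (hinr m' m).1 h1
  let e : M ≃ Set.range f := Equiv.ofInjective f hf
  letI : L.Structure (Set.range f) := e.inducedStructure
  let E : M ≃[L] Set.range f := e.inducedStructureEquiv
  obtain ⟨Z, ⟨φ⟩, r, hr⟩ := h (X ⊕ M) (Set.range f) (by
    rintro _ ⟨m, rfl⟩
    exact Finset.card_pair (by simp)) ⟨E⟩
  -- the embedding of `M` into itself
  let ψ : M ↪[L] Set.range f := Z.subtype.comp (φ.symm.comp E).toEmbedding
  let j : M ↪[L] M := E.symm.toEmbedding.comp ψ
  have hψ : ∀ m, ψ m ∈ Z := fun m => ((φ.symm.comp E) m).2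
  have hj : ∀ m, f (j m) = (ψ m : Finset (X ⊕ M)) := by
    intro m
    have h1 : E (j m) = ψ m := E.apply_symm_apply (ψ m)
    rw [← h1]
    rfl
  have hmem : ∀ m, f (j m) ∈ {p : Finset (X ⊕ M) | ∃ z ∈ Z, (z : Finset (X ⊕ M)) = p} :=
    fun m => ⟨ψ m, hψ m, (hj m).symm⟩
  refine ⟨j, ?_⟩
  by_cases hinj : Function.Injective (fun m => g (j m))
  · exact Or.inl hinj
  · right
    unfold Function.Injective at hinj
    push Not at hinj
    obtain ⟨m₁, m₂, hg, hne⟩ := hinj
    have hfne : ∀ m m', m ≠ m' → f (j m) ≠ f (j m') := fun m m' hmm hff =>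
      hmm (j.injective (hf hff))
    have h1 := hr _ (hmem m₁) _ (hmem m₂) (hfne _ _ hne)
    have h2 : (Sum.inl (g (j m₁)) : X ⊕ M) ∈ r := by
      rw [← h1]
      exact ⟨(hinl _ _).2 rfl, (hinl _ _).2 hg⟩
    refine ⟨g (j m₁), fun m => ?_⟩
    by_cases hm : m = m₁
    · rw [hm]
    · have h3 := hr _ (hmem m) _ (hmem m₁) (hfne _ _ hm)
      rw [← h3] at h2
      exact ((hinl _ _).1 h2.1).symm

/-- iteration for finitely many functions -/
theorem canonical_list [Infinite M] (h : Sunflowerable L M 2) (X : Type u) (n : ℕ)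
    (a : Fin n → M → X) :
    ∃ j : M ↪[L] M, ∀ i, Function.Injective (fun m => a i (j m)) ∨ ∃ c, ∀ m, a i (j m) = c := by
  induction n with
  | zero => exact ⟨Language.Embedding.refl L M, fun i => i.elim0⟩
  | succ n ih =>
    obtain ⟨j, hj⟩ := ih (fun i => a i.castSucc)
    obtain ⟨k, hk⟩ := canonical h X (fun m => a (Fin.last n) (j m))
    refine ⟨j.comp k, fun i => ?_⟩
    refine Fin.lastCases ?_ (fun i => ?_) i
    · exact hk
    · rcases hj i with h1 | ⟨c, hc⟩
      · exact Or.inl (h1.comp k.injective)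
      · exact Or.inr ⟨c, fun m => hc (k m)⟩

/-- functions with finitely many values are constant on a copy -/
theorem indivisible [Infinite M] (h : Sunflowerable L M 2) (X : Type u) (g : M → X)
    (hfin : (Set.range g).Finite) : ∃ j : M ↪[L] M, ∃ c, ∀ m, g (j m) = c := by
  obtain ⟨j, hj | hj⟩ := canonical h X g
  · exfalso
    exact Set.infinite_univ (α := M) (Set.Finite.of_finite_image (f := fun m => g (j m))
      (hfin.subset (by rintro _ ⟨m, _, rfl⟩; exact ⟨j m, rfl⟩)) (hj.injOn))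
  · exact ⟨j, hj⟩

/-- a relation with bounded degree has a colouring with finitely many colours -/
theorem colouring {α : Type u} (R : α → α → Prop) (hsymm : ∀ x y, R x y → R y x) (D : ℕ)
    (hD : ∀ x, ∃ s : Finset α, s.card ≤ D ∧ ∀ y, R x y → y ∈ s) :
    ∃ c : α → ℕ, (∀ x, c x ≤ D) ∧ ∀ x y, x ≠ y → R x y → c x ≠ c y := by
  classical
  letI : LinearOrder α := IsWellOrder.linearOrder (WellOrderingRel (α := α))
  haveI : WellFoundedLT α := ⟨WellOrderingRel.isWellOrder.wf⟩
  let F : (x : α) → ((y : α) → y < x → ℕ) → ℕ := fun x ih =>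
    sInf {k | ∀ y, ∀ hy : y < x, R x y → ih y hy ≠ k}
  let c : α → ℕ := WellFounded.fix (wellFounded_lt (α := α)) F
  have hc : ∀ x, c x = sInf {k | ∀ y, y < x → R x y → c y ≠ k} := by
    intro x
    have h1 : c x = F x (fun y _ => c y) := WellFounded.fix_eq _ _ _
    rw [h1]
  have hex : ∀ x, ∃ k ≤ D, ∀ y, y < x → R x y → c y ≠ k := by
    intro x
    obtain ⟨s, hs, hRs⟩ := hD x
    by_contra hcon
    push Not at hcon
    have h1 : Finset.range (D + 1) ⊆ s.image c := by
      intro k hk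
      obtain ⟨y, _, hy2, hy3⟩ := hcon k (Nat.lt_succ_iff.1 (Finset.mem_range.1 hk))
      exact Finset.mem_image.2 ⟨y, hRs y hy2, hy3⟩
    have h2 := (Finset.card_le_card h1).trans Finset.card_image_le
    rw [Finset.card_range] at h2
    omega
  have hmem : ∀ x, ∀ y, y < x → R x y → c y ≠ c x := by
    intro x
    have h1 : c x ∈ {k | ∀ y, y < x → R x y → c y ≠ k} := by
      rw [hc x]
      obtain ⟨k, _, hk⟩ := hex x
      exact Nat.sInf_mem ⟨k, hk⟩
    exact h1
  refine ⟨c, fun x => ?_, fun x y hxy hR => ?_⟩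
  · obtain ⟨k, hk1, hk2⟩ := hex x
    rw [hc x]
    exact (Nat.sInf_le (show k ∈ {k | ∀ y, y < x → R x y → c y ≠ k} from hk2)).trans hk1
  · rcases lt_or_gt_of_ne hxy with h1 | h1
    · exact hmem y x h1 (hsymm x y hR)
    · exact (hmem x y h1 hR).symm

/-- Every `2`-sunflowerable infinite structure is `n`-sunflowerable for all `n`. -/
theorem result (L : FirstOrder.Language.{v, w}) (M : Type u) [L.Structure M] [Infinite M]
    (h : Sunflowerable L M 2) (n : ℕ) : Sunflowerable L M n := by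
  classical
  intro X Y _ hY ⟨e⟩
  let f : M → Finset X := fun m => (e m : Finset X)
  have hf : Function.Injective f := fun m m' hmm => e.injective (Subtype.ext hmm)
  have hcard : ∀ m, (f m).card = n := fun m => hY _ (e m).2
  -- coordinates
  have hen : ∀ m, ∃ b : Fin n → X, Function.Injective b ∧ ∀ x, x ∈ f m ↔ ∃ i, b i = x := by
    intro m
    let b := (Finset.equivFinOfCardEq (hcard m)).symm
    refine ⟨fun i => (b i : X), fun i i' hii => b.injective (Subtype.ext hii), fun x => ?_⟩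
    constructor
    · intro hx
      exact ⟨b.symm ⟨x, hx⟩, by simp⟩
    · rintro ⟨i, rfl⟩
      exact (b i).2
  choose b hb1 hb2 using hen
  obtain ⟨j, hj⟩ := canonical_list h X n (fun i m => b m i)
  -- the constants
  let C : Set X := {x | ∃ i, ∀ m, b (j m) i = x}
  have hCf : ∀ m, ∀ x ∈ C, x ∈ f (j m) := by
    rintro m x ⟨i, hi⟩
    exact (hb2 _ _).2 ⟨i, hi m⟩
  have hinj : ∀ i, ¬ (∃ c, ∀ m, b (j m) i = c) → Function.Injective (fun m => b (j m) i) :=
    fun i hi => (hj i).resolve_right hi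
  -- the conflict relation
  let R : M → M → Prop := fun m m' => ∃ x, x ∉ C ∧ x ∈ f (j m) ∧ x ∈ f (j m')
  have hsymm : ∀ m m', R m m' → R m' m := fun m m' ⟨x, h1, h2, h3⟩ => ⟨x, h1, h3, h2⟩
  have hdeg : ∀ m, ∃ s : Finset M, s.card ≤ n * n ∧ ∀ m', R m m' → m' ∈ s := by
    intro m
    -- for a pair of indices there is at most one `m'`
    let P : Fin n × Fin n → M := fun p =>
      if hp : ∃ m', b (j m) p.1 = b (j m') p.2 then hp.choose else m
    refine ⟨Finset.univ.image P, ?_, ?_⟩
    · refine Finset.card_image_le.trans ?_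
      simp
    · rintro m' ⟨x, hxC, hx1, hx2⟩
      obtain ⟨i, hi⟩ := (hb2 _ _).1 hx1
      obtain ⟨i', hi'⟩ := (hb2 _ _).1 hx2
      have hnc : ¬ ∃ c, ∀ m, b (j m) i' = c := by
        rintro ⟨c, hc⟩
        apply hxC
        refine ⟨i', fun m'' => ?_⟩
        rw [hc m'', ← hc m', hi']
      have hp : ∃ m', b (j m) i = b (j m') i' := ⟨m', by rw [hi, hi']⟩
      refine Finset.mem_image.2 ⟨(i, i'), Finset.mem_univ _, ?_⟩
      have h1 : P (i, i') = hp.choose := dif_pos hp
      rw [h1]
      apply hinj i' hnc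
      show b (j hp.choose) i' = b (j m') i'
      rw [← hp.choose_spec, hi, hi']
  obtain ⟨c, hc1, hc2⟩ := colouring R hsymm (n * n) hdeg
  obtain ⟨k, c₀, hk⟩ := indivisible h (ULift.{u} ℕ) (fun m => ULift.up (c m)) (by
    refine Set.Finite.subset ((Set.finite_Iic (n * n)).image ULift.up) ?_
    rintro _ ⟨m, rfl⟩
    exact ⟨c m, hc1 m, rfl⟩)
  -- the copy
  let J : Y ↪[L] Y := e.toEmbedding.comp ((j.comp k).comp e.symm.toEmbedding)
  have hJ : ∀ y : Y, (J y : Finset X) = f (j (k (e.symm y))) := fun y => rfl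
  refine ⟨J.toHom.range, ⟨J.equivRange.symm⟩, C, ?_⟩
  rintro _ ⟨z, ⟨y, rfl⟩, rfl⟩ _ ⟨z', ⟨y', rfl⟩, rfl⟩ hne
  have e1 : ((J.toHom y : Y) : Finset X) = f (j (k (e.symm y))) := rfl
  have e2 : ((J.toHom y' : Y) : Finset X) = f (j (k (e.symm y'))) := rfl
  rw [e1, e2] at hne ⊢
  have hkne : k (e.symm y) ≠ k (e.symm y') := fun h0 => hne (by rw [h0])
  ext x
  constructor
  · rintro ⟨hx1, hx2⟩
    by_contra hxC
    apply hc2 _ _ hkne ⟨x, hxC, hx1, hx2⟩
    have h3 := hk (e.symm y)
    have h4 := hk (e.symm y')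
    exact ULift.up_injective (h3.trans h4.symm)
  · intro hx
    exact ⟨hCf _ x hx, hCf _ x hx⟩

end Pool.Agent.Results.MP_615e1a_lc.TwoImpliesAll
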